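import Mathlib
import Pool.Agent.X185.BS.Final

/-!
# MP_e685ae_an: the boundary spectrum of the inner factor of `θ'`

Affirmative answer to Q1: if `θ` is a nonconstant inner function with `θ'` in the Nevanlinna class
and `inn(θ')` continues holomorphically across a point `ζ` of the circle, then so does `θ`.
With the known inclusion `σ(inn(θ')) ⊂ σ(θ)` this gives `σ(inn(θ')) = σ(θ)`.

The definitions (file `Pool/Agent/X185/BS/Defs.lean`):
* `IsInner f`: `f` is holomorphic and bounded on the unit disc and for almost every `t` the radial
  limit at `exp (i t)` exists and has modulus `1`;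
* `poissonInt h z`: the Poisson integral at `z` of the boundary function `t ↦ h t`;
* `IsFactorization f I S O φ`: on the disc `S · f = I · O`, where `I` and `S` are inner, `S` has no
  zero, `φ t = lim |f (r exp (i t))|` for almost every `t`, `log φ` is integrable, and `O` is
  holomorphic with `|O z| = exp (poissonInt (log φ) z)`, i.e. `O` is the outer function with boundary
  modulus `|f|`.  The canonical factorization `f = B · S_μ · O / S_ν` of a function `f ≢ 0` of the
  Nevanlinna class is of this form with `I = B · S_μ = inn(f)` and `S = S_ν`; the theorem needs
  no relation (such as `μ ⊥ ν`) between `I` and `S`;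
* `ExtendsAt f ζ`: some function holomorphic on a ball around `ζ` agrees with `f` on the part of the
  ball inside the unit disc;
* `boundarySpectrum f`: the points `ζ` of the unit circle at which `ExtendsAt f ζ` fails.
-/

set_option autoImplicit false

namespace Pool.Agent.Results.MP_e685ae_an.SpectrumSubset

open Pool.Agent.X185.BS Metric

theorem result (θ I S O : ℂ → ℂ) (φ : ℝ → ℝ) (hθ : IsInner θ)
    (hnc : ¬ ∃ c, ∀ z ∈ ball (0 : ℂ) 1, θ z = c)
    (hF : IsFactorization (deriv θ) I S O φ) :
    boundarySpectrum θ ⊆ boundarySpectrum I :=
  spectrum_subset θ hθ hnc I S O φ hF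

end Pool.Agent.Results.MP_e685ae_an.SpectrumSubset
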